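import Pool.Agent.KK.StmtsG

/-!
# Block G, row G17: change of the partition outside a small set
-/

set_option autoImplicit false

namespace Pool.Agent.KK.E.H3c

open Pool.Agent.KK Pool.Agent.KK.E

variable {V : Type} [Fintype V] [DecidableEq V]

/-- all completions -/
def AA : List (Slot V) → Finset (List V)
  | [] => {[]}
  | Sum.inl v :: s => (AA s).image (fun e => v :: e)
  | Sum.inr _ :: s => (Finset.univ ×ˢ AA s).image (fun p : V × List V => p.1 :: p.2)

/-- completions with a free entry in `C` -/
def BB (C : Finset V) : List (Slot V) → Finset (List V)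
  | [] => ∅
  | Sum.inl v :: s => (BB C s).image (fun e => v :: e)
  | Sum.inr _ :: s => (C ×ˢ AA s).image (fun p : V × List V => p.1 :: p.2) ∪
      (Finset.univ ×ˢ BB C s).image (fun p : V × List V => p.1 :: p.2)

theorem fr_inl (v : V) (s : List (Slot V)) : fr (Sum.inl v :: s) = fr s := by
  unfold fr
  rw [List.countP_cons]
  simp

theorem fr_inr (b : Bool) (s : List (Slot V)) : fr ((Sum.inr b : Slot V) :: s) = fr s + 1 := by
  unfold fr
  rw [List.countP_cons]
  simp

theorem card_AA (s : List (Slot V)) : (AA s).card ≤ Fintype.card V ^ fr s := by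
  induction s with
  | nil => simp [AA, fr]
  | cons x s ih =>
    rcases x with v | b
    · rw [fr_inl]
      exact le_trans Finset.card_image_le ih
    · rw [fr_inr]
      refine le_trans Finset.card_image_le ?_
      rw [Finset.card_product, Finset.card_univ, pow_succ, mul_comm]
      exact Nat.mul_le_mul_right _ ih

theorem card_BB (C : Finset V) (s : List (Slot V)) :
    Fintype.card V * (BB C s).card ≤ fr s * C.card * Fintype.card V ^ fr s := by
  induction s with
  | nil => simp [BB]
  | cons x s ih =>
    rcases x with v | b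
    · rw [fr_inl]
      exact le_trans (Nat.mul_le_mul_left _ Finset.card_image_le) ih
    · rw [fr_inr]
      have h1 : (BB C ((Sum.inr b : Slot V) :: s)).card ≤
          C.card * (AA s).card + Fintype.card V * (BB C s).card := by
        refine le_trans (Finset.card_union_le _ _) ?_
        refine Nat.add_le_add ?_ ?_
        · refine le_trans Finset.card_image_le ?_
          rw [Finset.card_product]
        · refine le_trans Finset.card_image_le ?_
          rw [Finset.card_product, Finset.card_univ]
      have h2 := card_AA s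
      calc Fintype.card V * (BB C ((Sum.inr b : Slot V) :: s)).card
          ≤ Fintype.card V * (C.card * (AA s).card + Fintype.card V * (BB C s).card) :=
            Nat.mul_le_mul_left _ h1
        _ ≤ Fintype.card V * (C.card * Fintype.card V ^ fr s +
              fr s * C.card * Fintype.card V ^ fr s) :=
            Nat.mul_le_mul_left _ (Nat.add_le_add (Nat.mul_le_mul_left _ h2) ih)
        _ = (fr s + 1) * C.card * Fintype.card V ^ (fr s + 1) := by ring

theorem mem_AA {X : Finset V} {s : List (Slot V)} {e : List V}
    (h : List.Forall₂ (Fit X) s e) : e ∈ AA s := by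
  induction h with
  | nil => simp [AA]
  | @cons x w s e hx _ ih =>
    rcases x with v | b
    · have hv : v = w := hx
      subst hv
      exact Finset.mem_image_of_mem _ ih
    · exact Finset.mem_image.2 ⟨(w, e), Finset.mem_product.2 ⟨Finset.mem_univ _, ih⟩, rfl⟩

theorem mem_BB {X X' C : Finset V} (hC : ∀ v, v ∉ C → (v ∈ X ↔ v ∈ X'))
    {s : List (Slot V)} {e : List V} (h : List.Forall₂ (Fit X') s e) :
    e ∈ BB C s ∨ List.Forall₂ (Fit X) s e := by
  induction h with
  | nil => exact Or.inr List.Forall₂.nil
  | @cons x w s e hx hs ih =>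
    rcases x with v | b
    · have hv : v = w := hx
      subst hv
      rcases ih with ih | ih
      · exact Or.inl (Finset.mem_image_of_mem _ ih)
      · exact Or.inr (List.Forall₂.cons rfl ih)
    · by_cases hw : w ∈ C
      · left
        apply Finset.mem_union_left
        exact Finset.mem_image.2 ⟨(w, e), Finset.mem_product.2 ⟨hw, mem_AA hs⟩, rfl⟩
      · rcases ih with ih | ih
        · left
          apply Finset.mem_union_right
          exact Finset.mem_image.2 ⟨(w, e), Finset.mem_product.2 ⟨Finset.mem_univ _, ih⟩, rfl⟩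
        · right
          refine List.Forall₂.cons ?_ ih
          have h1 : w ∈ X' ↔ b = true := hx
          exact (hC w hw).trans h1

theorem oks {H : Finset (Finset V)} {X X' C : Finset V} {k : ℕ} {ε : ℝ}
    (hC : ∀ v, v ∉ C → (v ∈ X ↔ v ∈ X')) (hε : 0 < ε)
    (hk : (k : ℝ) * (C.card : ℝ) ≤ ε * (Fintype.card V : ℝ)) {s : List (Slot V)}
    (hs : s.length = k) (h : OKs H X ε s) : OKs H X' (2 * ε) s := by
  unfold OKs at h ⊢
  have hfin : (BadC H X s).Finite := by
    apply Set.Finite.subset (AA s).finite_toSet
    rintro e ⟨he, _⟩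
    exact mem_AA he
  have hsub : BadC H X' s ⊆ BadC H X s ∪ (BB C s : Set (List V)) := by
    rintro e ⟨he, hn, hH⟩
    rcases mem_BB hC he with h1 | h1
    · exact Or.inr h1
    · exact Or.inl ⟨h1, hn, hH⟩
  have h1 : (BadC H X' s).ncard ≤ (BadC H X s).ncard + (BB C s).card := by
    refine le_trans (Set.ncard_le_ncard hsub (hfin.union (BB C s).finite_toSet)) ?_
    refine le_trans (Set.ncard_union_le _ _) ?_
    rw [Set.ncard_coe_finset]
  have h2 : ((BB C s).card : ℝ) ≤ ε * (Fintype.card V : ℝ) ^ fr s := by
    have h3 := card_BB C s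
    have hfr : fr s ≤ k := by
      rw [← hs]
      exact List.countP_le_length
    rcases Nat.eq_zero_or_pos (Fintype.card V) with h0 | h0
    · have hC0 : C.card = 0 := by
        have := Finset.card_le_univ C
        omega
      have hB : (BB C s).card = 0 := by
        by_contra hne
        obtain ⟨e, he⟩ := Finset.card_pos.1 (Nat.pos_of_ne_zero hne)
        have hV : IsEmpty V := Fintype.card_eq_zero_iff.1 h0
        have : ∀ t : List (Slot V), BB C t = ∅ := by
          intro t
          cases t with
          | nil => rfl
          | cons x t =>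
            rcases x with v | b
            · exact hV.elim v
            · simp [BB, Finset.card_eq_zero.1 hC0, Finset.univ_eq_empty]
        rw [this s] at he
        exact absurd he (Finset.notMem_empty _)
      rw [hB, Nat.cast_zero]
      positivity
    · have hn : (0 : ℝ) < (Fintype.card V : ℝ) := by exact_mod_cast h0
      have h4 : (Fintype.card V : ℝ) * ((BB C s).card : ℝ) ≤
          (fr s : ℝ) * (C.card : ℝ) * (Fintype.card V : ℝ) ^ fr s := by exact_mod_cast h3
      have h5 : (fr s : ℝ) * (C.card : ℝ) ≤ ε * (Fintype.card V : ℝ) := by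
        refine le_trans (mul_le_mul_of_nonneg_right ?_ (Nat.cast_nonneg _)) hk
        exact_mod_cast hfr
      have h6 : (Fintype.card V : ℝ) * ((BB C s).card : ℝ) ≤
          (Fintype.card V : ℝ) * (ε * (Fintype.card V : ℝ) ^ fr s) := by
        refine le_trans h4 ?_
        refine le_trans (mul_le_mul_of_nonneg_right h5 (by positivity)) (le_of_eq ?_)
        ring
      exact le_of_mul_le_mul_left h6 hn
  have h7 : ((BadC H X' s).ncard : ℝ) ≤ ((BadC H X s).ncard : ℝ) + ((BB C s).card : ℝ) := by
    exact_mod_cast h1
  linarith

theorem okl {H : Finset (Finset V)} {X X' C : Finset V} {k : ℕ} {ε : ℝ}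
    (hC : ∀ v, v ∉ C → (v ∈ X ↔ v ∈ X')) (hε : 0 < ε)
    (hk : (k : ℝ) * (C.card : ℝ) ≤ ε * (Fintype.card V : ℝ)) {L : List (Slot V)}
    (h : OKl H X k ε L) : OKl H X' k (2 * ε) L :=
  fun s hs hl => oks hC hε hk hl (h s hs hl)

theorem map_eq {X X' : Finset V} {l : List V} (h : ∀ v ∈ l, (v ∈ X ↔ v ∈ X')) :
    l.map (fun v => decide (v ∈ X')) = l.map (fun v => decide (v ∈ X)) := by
  apply List.map_congr_left
  intro v hv
  exact decide_eq_decide.2 (h v hv).symm

theorem g17 : StmtG17 := by
  intro V _ _ H X X' C k ε hC hε hk
  refine ⟨?_, ?_⟩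
  · intro K K₀ uL c uR hK h Z hZ
    obtain ⟨l, hnd, hl, hm, hok⟩ := h (Z ∪ C) (by
      have := Finset.card_union_le Z C
      omega)
    refine ⟨l, hnd, fun v hv hvZ => hl v hv (Finset.mem_union_left _ hvZ), ?_,
      okl hC hε hk hok⟩
    rw [← hm]
    exact map_eq (fun v hv => hC v (fun hvC => hl v hv (Finset.mem_union_right _ hvC)))
  · intro κ κ' z m m' uL uR hκ h Z hZ hzZ
    obtain ⟨l₁, l₂, h1, h2, hnd, hl, hok⟩ := h ((Z ∪ C).erase z) (by
      have h3 : (((Z ∪ C).erase z).card : ℝ) ≤ (Z.card : ℝ) + (C.card : ℝ) := by
        have h4 : ((Z ∪ C).erase z).card ≤ Z.card + C.card :=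
          le_trans (Finset.card_erase_le) (Finset.card_union_le Z C)
        exact_mod_cast h4
      linarith) (Finset.notMem_erase z _)
    have hne : ∀ u ∈ l₁ ++ z :: l₂, u ≠ z → u ∉ Z ∪ C := by
      intro u hu huz huZ
      exact hl u hu (Finset.mem_erase.2 ⟨huz, huZ⟩)
    have hz1 : z ∉ l₁ := by
      intro hz
      exact (List.nodup_append.1 hnd).2.2 z hz z List.mem_cons_self rfl
    have hz2 : z ∉ l₂ := by
      have := (List.nodup_append.1 hnd).2.1
      exact (List.nodup_cons.1 this).1
    refine ⟨l₁ ++ z :: l₂, hnd, List.mem_append_right _ List.mem_cons_self, ?_, ?_,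
      okl hC hε hk hok⟩
    · intro v hv hvZ
      by_cases hvz : v = z
      · rw [hvz] at hvZ
        exact hzZ hvZ
      · exact hne v hv hvz (Finset.mem_union_left _ hvZ)
    · rw [List.map_append, List.map_cons]
      have e1 : l₁.map (fun v => decide (v ∈ X')) = m := by
        rw [← h1]
        apply map_eq
        intro v hv
        apply hC
        intro hvC
        refine hne v (List.mem_append_left _ hv) ?_ (Finset.mem_union_right _ hvC)
        rintro rfl
        exact hz1 hv
      have e2 : l₂.map (fun v => decide (v ∈ X')) = m' := by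
        rw [← h2]
        apply map_eq
        intro v hv
        apply hC
        intro hvC
        refine hne v (List.mem_append_right _ (List.mem_cons_of_mem _ hv)) ?_
          (Finset.mem_union_right _ hvC)
        rintro rfl
        exact hz2 hv
      rw [e1, e2]

end Pool.Agent.KK.E.H3c
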