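import Pool.Agent.KK.StmtsW

/-! MP_747bc0_co, squad KK, block BETA, rows CYC TRA NEA. -/

set_option autoImplicit false

namespace Pool.Agent.KK.H3

theorem infix_iff_drop {α : Type} (M s : List α) (k : ℕ) :
    (s <:+: M ∧ s.length = k) ↔ ∃ i, i + k ≤ M.length ∧ s = (M.drop i).take k := by
  constructor
  · rintro ⟨⟨t, u, h⟩, hk⟩
    refine ⟨t.length, ?_, ?_⟩
    · rw [← h, List.length_append, List.length_append, hk]
      omega
    · rw [← h, List.append_assoc, List.drop_left, ← hk, List.take_left]
  · rintro ⟨i, hi, rfl⟩
    refine ⟨(List.take_prefix _ _).isInfix.trans (List.drop_suffix _ _).isInfix, ?_⟩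
    rw [List.length_take, List.length_drop]
    omega

theorem cyc : CycStmt := by
  intro α L k hk hkL s
  rw [infix_iff_drop]
  have hlen : (L ++ L.take (k - 1)).length = L.length + (k - 1) := by
    rw [List.length_append, List.length_take]
    omega
  have key : ∀ i < L.length, ((L ++ L.take (k - 1)).drop i).take k = (L.rotate i).take k := by
    intro i hi
    rw [List.rotate_eq_drop_append_take hi.le, List.drop_append_of_le_length hi.le,
      List.take_append, List.take_append, List.take_take, List.take_take, List.length_drop]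
    congr 2
    omega
  constructor
  · rintro ⟨i, hi, rfl⟩
    rw [hlen] at hi
    exact ⟨i, by omega, key i (by omega)⟩
  · rintro ⟨i, hi, rfl⟩
    refine ⟨i, ?_, (key i hi).symm⟩
    rw [hlen]
    omega

theorem tra : TraStmt := by
  intro V _ _ H X k p ε K u v w N N' a a' q q' h1 h2
  induction h2 with
  | nil => exact h1
  | letter v N' a' q' b _ hw ih =>
    have h3 := Pl.letter _ _ _ _ _ b ih hw
    rw [Nat.add_assoc a] at h3
    exact h3
  | gadget v N' a' q' c uR _ hc1 hc2 huR hS ih =>
    have h3 := Pl.gadget _ _ _ _ _ c uR ih hc1 hc2 huR hS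
    have e1 : N + N' + c.length + (k - 1) = N + (N' + c.length + (k - 1)) := by omega
    have e2 : a + a' + wt c + wt uR = a + (a' + wt c + wt uR) := by omega
    rw [e1, e2] at h3
    exact h3

theorem badC_finite {V : Type} [Fintype V] [DecidableEq V] (H : Finset (Finset V)) (X : Finset V)
    (s : List (Slot V)) : (BadC H X s).Finite :=
  (List.finite_length_eq V s.length).subset fun _ he => he.1.length_eq.symm

theorem nea : NeaStmt := by
  intro V _ _ H X k p γ hk hγ hN u hu hp
  obtain ⟨b, u', rfl⟩ : ∃ b u', u = b :: u' := by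
    cases u with
    | nil =>
      simp only [List.length_nil] at hu
      omega
    | cons b u' => exact ⟨b, u', rfl⟩
  have hsub : BadC H X (fw (b :: u')) ⊆
      ⋃ v ∈ (Finset.univ.filter fun v : V => decide (v ∈ X) = b),
        BadC H X (Sum.inl v :: fw u') := by
    rintro e ⟨he1, he2, he3⟩
    change List.Forall₂ (Fit X) (Sum.inr b :: fw u') e at he1
    cases he1 with
    | cons h1 h2 =>
      rename_i w e'
      refine Set.mem_biUnion (x := w) ?_ ⟨List.Forall₂.cons rfl h2, he2, he3⟩
      rw [Finset.mem_coe, Finset.mem_filter]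
      refine ⟨Finset.mem_univ _, ?_⟩
      have h3 : w ∈ X ↔ b = true := h1
      by_cases hw : w ∈ X
      · rw [h3.1 hw]
        simpa using hw
      · have : b = false := by
          cases b
          · rfl
          · exact absurd (h3.2 rfl) hw
        rw [this]
        simpa using hw
  have hcard : (BadC H X (fw (b :: u'))).ncard ≤
      ∑ v ∈ (Finset.univ.filter fun v : V => decide (v ∈ X) = b),
        (BadC H X (Sum.inl v :: fw u')).ncard := by
    refine (Set.ncard_le_ncard hsub ?_).trans ?_
    · exact Set.Finite.biUnion (Finset.finite_toSet _) fun v _ => badC_finite H X _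
    · exact Finset.set_ncard_biUnion_le _ _
  calc ((BadC H X (fw (b :: u'))).ncard : ℝ)
      ≤ ∑ v ∈ (Finset.univ.filter fun v : V => decide (v ∈ X) = b),
        ((BadC H X (Sum.inl v :: fw u')).ncard : ℝ) := by exact_mod_cast hcard
    _ ≤ ∑ _v ∈ (Finset.univ.filter fun v : V => decide (v ∈ X) = b),
        γ * (Fintype.card V : ℝ) ^ (k - 1) := by
        refine Finset.sum_le_sum fun v hv => ?_
        have hv' := (Finset.mem_filter.1 hv).2
        have h4 := (hN v [] u' (by simpa [Nat.add_comm] using hu)).1 (by
          rw [hv']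
          exact hp)
        exact h4
    _ = ((Finset.univ.filter fun v : V => decide (v ∈ X) = b).card : ℝ) *
        (γ * (Fintype.card V : ℝ) ^ (k - 1)) := by
        rw [Finset.sum_const, nsmul_eq_mul]
    _ ≤ (Fintype.card V : ℝ) * (γ * (Fintype.card V : ℝ) ^ (k - 1)) := by
        gcongr
        exact Finset.card_le_univ _
    _ = γ * (Fintype.card V : ℝ) ^ k := by
        have : (Fintype.card V : ℝ) ^ k =
            (Fintype.card V : ℝ) ^ (k - 1) * (Fintype.card V : ℝ) := by
          rw [← pow_succ]
          congr 1
          omega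
        rw [this]
        ring

end Pool.Agent.KK.H3
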