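import Pool.Agent.KK.StmtsE

/-! MP_747bc0_co, squad KK, row E_DEN: elementary properties of densities in a box. -/

set_option autoImplicit false

namespace Pool.Agent.KK.E.H3

variable {V : Type} {ι : Type} [Fintype ι]

theorem ncard_box [DecidableEq ι] (c : ι → Finset V) (P : (ι → V) → Prop) [DecidablePred P] :
    {f : ι → V | (∀ i, f i ∈ c i) ∧ P f}.ncard = ((Fintype.piFinset c).filter P).card := by
  rw [← Set.ncard_coe_finset]
  congr 1
  ext f
  simp [Fintype.mem_piFinset]

theorem prod_card [DecidableEq ι] (c : ι → Finset V) :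
    (∏ i, ((c i).card : ℝ)) = ((Fintype.piFinset c).card : ℝ) := by
  rw [Fintype.card_piFinset]
  push_cast
  rfl

variable [Fintype V] [DecidableEq V]

theorem dens_eq [DecidableEq ι] (c : ι → Finset V) (P : (ι → V) → Prop) [DecidablePred P] :
    dens c P = (((Fintype.piFinset c).filter P).card : ℝ) / ((Fintype.piFinset c).card : ℝ) := by
  unfold dens
  rw [ncard_box, prod_card]

theorem e_den : StmtE01 := by
  intro V _ _ ι _ c hc
  classical
  have hN : (0 : ℝ) < ((Fintype.piFinset c).card : ℝ) := by
    have : (Fintype.piFinset c).Nonempty := by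
      choose f hf using hc
      exact ⟨f, Fintype.mem_piFinset.2 hf⟩
    exact_mod_cast this.card_pos
  have hmono : ∀ P Q : (ι → V) → Prop, (∀ f, (∀ i, f i ∈ c i) → P f → Q f) →
      dens c P ≤ dens c Q := by
    intro P Q h
    rw [dens_eq, dens_eq]
    apply div_le_div_of_nonneg_right _ hN.le
    have h1 : (Fintype.piFinset c).filter P ⊆ (Fintype.piFinset c).filter Q := by
      intro f hf
      rw [Finset.mem_filter] at hf ⊢
      exact ⟨hf.1, h f (Fintype.mem_piFinset.1 hf.1) hf.2⟩
    exact_mod_cast Finset.card_le_card h1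
  refine ⟨fun P => ⟨?_, ?_⟩, hmono, fun P Q => ?_, fun P => ?_, fun P hP => ?_, ?_⟩
  · rw [dens_eq]
    positivity
  · rw [dens_eq]
    apply div_le_one_of_le₀ _ hN.le
    exact_mod_cast Finset.card_filter_le _ _
  · rw [dens_eq, dens_eq, dens_eq, ← add_div]
    apply div_le_div_of_nonneg_right _ hN.le
    rw [Finset.filter_or]
    exact_mod_cast Finset.card_union_le _ _
  · rw [dens_eq, dens_eq, ← add_div, div_eq_one_iff_eq hN.ne']
    exact_mod_cast Finset.card_filter_add_card_filter_not (s := Fintype.piFinset c) P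
  · rw [dens_eq] at hP
    have h1 : (0 : ℝ) < (((Fintype.piFinset c).filter P).card : ℝ) := by
      by_contra hcon
      have h2 : (((Fintype.piFinset c).filter P).card : ℝ) = 0 :=
        le_antisymm (not_lt.1 hcon) (by positivity)
      rw [h2, zero_div] at hP
      exact lt_irrefl _ hP
    obtain ⟨f, hf⟩ := Finset.card_pos.1 (by exact_mod_cast h1)
    rw [Finset.mem_filter] at hf
    exact ⟨f, Fintype.mem_piFinset.1 hf.1, hf.2⟩
  · intro T _ P
    rw [dens_eq]
    have h1 : ∀ t, dens c (P t) = (((Fintype.piFinset c).filter (P t)).card : ℝ) /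
        ((Fintype.piFinset c).card : ℝ) := fun t => dens_eq c (P t)
    rw [Finset.sum_congr rfl fun t _ => h1 t, ← Finset.sum_div]
    apply div_le_div_of_nonneg_right _ hN.le
    have h2 : (Fintype.piFinset c).filter (fun f => ∃ t, P t f) ⊆
        Finset.univ.biUnion fun t => (Fintype.piFinset c).filter (P t) := by
      intro f hf
      rw [Finset.mem_filter] at hf
      obtain ⟨t, ht⟩ := hf.2
      exact Finset.mem_biUnion.2 ⟨t, Finset.mem_univ _, Finset.mem_filter.2 ⟨hf.1, ht⟩⟩
    exact_mod_cast (Finset.card_le_card h2).trans Finset.card_biUnion_le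

end Pool.Agent.KK.E.H3
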