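import Pool.Agent.Helper3_KK.E_DEN

/-! MP_747bc0_co, squad KK, row E_FUB: Fubini and Markov for densities in a box. -/

set_option autoImplicit false

namespace Pool.Agent.KK.E.H3

theorem card_sum {V : Type} {ι κ : Type} [Fintype ι] [Fintype κ] [DecidableEq V]
    [DecidableEq ι] [DecidableEq κ] (c : ι → Finset V) (d : κ → Finset V)
    (P : (ι ⊕ κ → V) → Prop) [DecidablePred P] :
    ((Fintype.piFinset (Sum.elim c d)).filter P).card =
      ∑ f ∈ Fintype.piFinset c,
        ((Fintype.piFinset d).filter fun g => P (Sum.elim f g)).card := by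
  rw [Finset.card_eq_sum_card_fiberwise (f := fun h : ι ⊕ κ → V => h ∘ Sum.inl)
    (t := Fintype.piFinset c)]
  · refine Finset.sum_congr rfl fun f hf => ?_
    refine Finset.card_bij' (fun h _ => h ∘ Sum.inr) (fun g _ => Sum.elim f g) ?_ ?_ ?_ ?_
    · intro h hh
      rw [Finset.mem_filter, Finset.mem_filter, Fintype.mem_piFinset] at hh
      rw [Finset.mem_filter, Fintype.mem_piFinset]
      refine ⟨fun j => hh.1.1 (Sum.inr j), ?_⟩
      have h1 : Sum.elim f (h ∘ Sum.inr) = h := by
        rw [← hh.2]
        exact Sum.elim_comp_inl_inr h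
      rw [h1]
      exact hh.1.2
    · intro g hg
      rw [Finset.mem_filter, Fintype.mem_piFinset] at hg
      rw [Finset.mem_filter, Finset.mem_filter, Fintype.mem_piFinset]
      refine ⟨⟨?_, hg.2⟩, Sum.elim_comp_inl f g⟩
      rintro (i | j)
      · exact Fintype.mem_piFinset.1 hf i
      · exact hg.1 j
    · intro h hh
      rw [Finset.mem_filter, Finset.mem_filter] at hh
      rw [← hh.2]
      exact Sum.elim_comp_inl_inr h
    · intro g _
      exact Sum.elim_comp_inr f g
  · intro h hh
    rw [Finset.coe_filter] at hh
    have h1 := Fintype.mem_piFinset.1 hh.1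
    exact Finset.mem_coe.2 (Fintype.mem_piFinset.2 fun i => h1 (Sum.inl i))

theorem fubini {V : Type} [Fintype V] [DecidableEq V] {ι κ : Type} [Fintype ι] [DecidableEq ι]
    [Fintype κ] (c : ι → Finset V) (d : κ → Finset V) (P : (ι ⊕ κ → V) → Prop) :
    dens (Sum.elim c d) P = avg c (fun f => dens d (fun g => P (Sum.elim f g))) := by
  classical
  unfold avg
  rw [dens_eq, card_sum, prod_card]
  have h1 : ∀ f : ι → V, dens d (fun g => P (Sum.elim f g)) =
      (((Fintype.piFinset d).filter fun g => P (Sum.elim f g)).card : ℝ) /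
        ((Fintype.piFinset d).card : ℝ) := fun f => dens_eq d _
  rw [Finset.sum_congr rfl fun f _ => h1 f, ← Finset.sum_div, div_div]
  have h2 : ((Fintype.piFinset (Sum.elim c d)).card : ℝ) =
      ((Fintype.piFinset d).card : ℝ) * ((Fintype.piFinset c).card : ℝ) := by
    rw [← prod_card, ← prod_card, ← prod_card, Fintype.prod_sum_type, mul_comm]
    rfl
  rw [h2]
  push_cast
  rfl

theorem e_fub (_h : StmtE01) : StmtE03 := by
  intro V _ _ ι κ _ _ _ c d hc hd
  classical
  have hN : (0 : ℝ) < ((Fintype.piFinset c).card : ℝ) := by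
    have : (Fintype.piFinset c).Nonempty := by
      choose f hf using hc
      exact ⟨f, Fintype.mem_piFinset.2 hf⟩
    exact_mod_cast this.card_pos
  refine ⟨fubini c d, fun P τ hτ => ?_, fun A P τ hτ h => ?_⟩
  · rw [fubini]
    unfold avg
    rw [dens_eq, prod_card, ← mul_div_assoc]
    apply div_le_div_of_nonneg_right _ hN.le
    calc τ * (((Fintype.piFinset c).filter
            fun f => τ < dens d (fun g => P (Sum.elim f g))).card : ℝ)
        = ∑ _f ∈ (Fintype.piFinset c).filter
            (fun f => τ < dens d (fun g => P (Sum.elim f g))), τ := by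
          rw [Finset.sum_const, nsmul_eq_mul, mul_comm]
      _ ≤ ∑ f ∈ (Fintype.piFinset c).filter
            (fun f => τ < dens d (fun g => P (Sum.elim f g))),
            dens d (fun g => P (Sum.elim f g)) :=
          Finset.sum_le_sum fun f hf => (Finset.mem_filter.1 hf).2.le
      _ ≤ ∑ f ∈ Fintype.piFinset c, dens d (fun g => P (Sum.elim f g)) := by
          refine Finset.sum_le_sum_of_subset_of_nonneg (Finset.filter_subset _ _) fun f _ _ => ?_
          rw [dens_eq]
          positivity
  · rw [fubini]
    unfold avg
    rw [dens_eq, prod_card, ← mul_div_assoc]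
    apply div_le_div_of_nonneg_right _ hN.le
    calc ∑ f ∈ Fintype.piFinset c,
          dens d (fun g => A (Sum.elim f g ∘ Sum.inl) ∧ P (Sum.elim f g))
        ≤ ∑ f ∈ Fintype.piFinset c, if A f then τ else 0 := by
          refine Finset.sum_le_sum fun f hf => ?_
          simp only [Sum.elim_comp_inl]
          by_cases hA : A f
          · rw [if_pos hA]
            have h1 := h f (Fintype.mem_piFinset.1 hf) hA
            refine le_trans (le_of_eq ?_) h1
            congr 1
            funext g
            simp [hA]
          · rw [if_neg hA]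
            refine le_of_eq ?_
            rw [dens_eq]
            have h1 : (Fintype.piFinset d).filter (fun g => A f ∧ P (Sum.elim f g)) = ∅ := by
              refine Finset.filter_eq_empty_iff.2 fun g _ hg => hA hg.1
            rw [h1]
            simp
      _ = τ * (((Fintype.piFinset c).filter A).card : ℝ) := by
          rw [← Finset.sum_filter, Finset.sum_const, nsmul_eq_mul, mul_comm]

end Pool.Agent.KK.E.H3
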