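import Pool.Agent.KK.StmtsB

/-! MP_747bc0_co, squad KK, row B_NTR: no typical split plane means trivial. -/

namespace Pool.Agent.KK.B.H3

open Function
open scoped Classical

theorem ntr (hPlt : PltStmt) (hRes : ResStmt) : NtrStmt := by
  intro k V _ _ E D β δ κ ν i0 i1 hβ0 hβ16 hβκ hκν hν0 hν8 hE hDeg hInd hne hlev hSS
  have hκ0 : 0 ≤ κ := hβ0.le.trans hβκ
  have hk1 : (1 : ℝ) ≤ k := by
    have : 0 < k := lt_of_le_of_lt (Nat.zero_le _) i0.2
    exact_mod_cast this
  have hκ3 : 3 * κ ≤ ν ^ 2 := by
    refine le_trans ?_ hκν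
    nlinarith
  -- (1) planes are not split
  have key : ∀ a, lev δ (G0 E D β) k a → ∀ i l : Fin k, i ≠ l →
      (dens (fun p => D i (update a l p)) ≤ β ∧ dens (fun q => D l (update a i q)) ≤ β) ∨
      (dens (fun p => ¬ D i (update a l p)) ≤ β ∧ dens (fun q => ¬ D l (update a i q)) ≤ β) := by
    intro a ha i l hil
    have hG : G0 E D β a := lev_le (Nat.zero_le k) ha
    have hns : ¬ Sp D a i l := by
      obtain ⟨σ, h1, h2⟩ := exists_perm hil hne
      intro hSp
      refine hSS (a ∘ σ.symm) ((lev_perm (G0_perm E D β) k σ.symm a).2 ha) ⟨σ, ?_⟩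
      have h3 : (a ∘ σ.symm) ∘ σ = a := by
        funext x
        simp
      rw [h3, ← h1, ← h2, Equiv.symm_apply_apply, Equiv.symm_apply_apply]
      exact hSp
    rcases hPlt k V E D β a i l hβ0 hβ16 hE hDeg hil (G0_self hG hil).2.1 with h | h | h
    · exact Or.inl h
    · exact Or.inr h
    · exact absurd h.1 hns
  -- (2) every `D i` is nearly constant
  have hW : WDet ν (fun _ : V => True) D := by
    refine hRes k V (fun _ => True) D κ ν hκ0 hν0.le hκν hInd ?_
    refine (dens_mono fun a ha => ?_).trans hlev
    intro hl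
    refine ha fun i l hil => ?_
    rcases key a hl i l hil with h | h
    · exact Or.inl (h.1.trans hβκ)
    · exact Or.inr (Or.inl (h.1.trans hβκ))
  have hone : ∀ i, dens (D i) ≤ ν ∨ dens (fun a => ¬ D i a) ≤ ν := by
    intro i
    have hwd : ∀ a : Fin k → V, wd (fun _ : V => True) (fun _ => true) a := by
      intro a l
      simp
    rcases hW i (fun _ => true) with h | h
    · left
      exact (dens_mono fun a ha => ⟨ha, hwd a⟩).trans h
    · right
      exact (dens_mono fun a ha => ⟨ha, hwd a⟩).trans h
  -- (3) the constants agree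
  have hagree : ∀ i l : Fin k, i ≠ l → dens (D i) ≤ ν → dens (fun a => ¬ D l a) ≤ ν → False := by
    intro i l hil h1 h2
    have m1 := markov (fun (a : Fin k → V) (p : V) => D i (update a l p)) (1 / 2)
    have e1 := dens_update l (D i)
    have m2 := markov (fun (a : Fin k → V) (q : V) => ¬ D l (update a i q)) (1 / 2)
    have e2 := dens_update i (fun a => ¬ D l a)
    have b1 : dens (fun a : Fin k → V => 1 / 2 < dens (fun p => D i (update a l p))) ≤ 2 * ν := by
      have : dens (fun x : (Fin k → V) × V => D i (update x.1 l x.2)) ≤ ν := e1.le.trans h1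
      linarith
    have b2 : dens (fun a : Fin k → V => 1 / 2 < dens (fun q => ¬ D l (update a i q))) ≤
        2 * ν := by
      have : dens (fun x : (Fin k → V) × V => ¬ D l (update x.1 i x.2)) ≤ ν := e2.le.trans h2
      linarith
    have b3 : dens (fun a : Fin k → V => ¬ lev δ (G0 E D β) k a ∨
        (1 / 2 < dens (fun p => D i (update a l p)) ∨
          1 / 2 < dens (fun q => ¬ D l (update a i q)))) ≤ κ + (2 * ν + 2 * ν) :=
      (dens_or_le _ _).trans (add_le_add hlev ((dens_or_le _ _).trans (add_le_add b1 b2)))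
    have b4 : κ + (2 * ν + 2 * ν) < 1 := by nlinarith
    have b5 : 0 < dens (fun a : Fin k → V => ¬ (¬ lev δ (G0 E D β) k a ∨
        (1 / 2 < dens (fun p => D i (update a l p)) ∨
          1 / 2 < dens (fun q => ¬ D l (update a i q))))) := by
      rw [dens_not]
      linarith
    obtain ⟨a, ha⟩ := exists_of_dens_pos b5
    have ha1 : lev δ (G0 E D β) k a := by
      by_contra hh
      exact ha (Or.inl hh)
    have ha2 : dens (fun p => D i (update a l p)) ≤ 1 / 2 := by
      by_contra hh
      exact ha (Or.inr (Or.inl (not_le.1 hh)))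
    have ha3 : dens (fun q => ¬ D l (update a i q)) ≤ 1 / 2 := by
      by_contra hh
      exact ha (Or.inr (Or.inr (not_le.1 hh)))
    rcases key a ha1 i l hil with h | h
    · have h3 := h.2
      rw [dens_not] at ha3
      linarith
    · have h3 := h.1
      rw [dens_not] at h3
      linarith
  rcases hone i0 with h | h
  · left
    intro l
    by_cases hl : l = i0
    · rw [hl]
      exact h
    · rcases hone l with h1 | h1
      · exact h1
      · exact (hagree i0 l (Ne.symm hl) h h1).elim
  · right
    intro l
    by_cases hl : l = i0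
    · rw [hl]
      exact h
    · rcases hone l with h1 | h1
      · exact (hagree l i0 hl h1 h).elim
      · exact h1

end Pool.Agent.KK.B.H3
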