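import Pool.Agent.KK.StmtsW

/-! MP_747bc0_co, squad KK, block BETA, rows PWT BLR PER: periodic words. -/

set_option autoImplicit false

namespace Pool.Agent.KK.H3

theorem per_length (w : List Bool) (a m : ℕ) : (per w a m).length = m := by
  simp [per]

theorem per_getD (w : List Bool) (a m i : ℕ) (hi : i < m) (x : Bool) :
    (per w a m).getD i x = w.getD ((a + i) % w.length) false := by
  rw [List.getD_eq_getElem _ _ (by rw [per_length]; exact hi)]
  simp [per]

theorem per_get (w : List Bool) (a m i : ℕ) (hi : i < (per w a m).length) :
    (per w a m)[i] = w.getD ((a + i) % w.length) false := by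
  simp [per]

theorem per_rotate (w : List Bool) (a : ℕ) : per w a w.length = w.rotate a := by
  refine List.ext_getElem ?_ fun i h1 h2 => ?_
  · rw [per_length, List.length_rotate]
  · rw [per_get, List.getElem_rotate]
    rw [per_length] at h1
    have h3 : (a + i) % w.length < w.length := Nat.mod_lt _ (by omega)
    rw [List.getD_eq_getElem _ _ h3]
    congr 2
    omega

theorem wt_perm {u v : List Bool} (h : u.Perm v) : wt u = wt v := h.count_eq true

theorem wt_per (w : List Bool) (a : ℕ) : wt (per w a w.length) = wt w := by
  rw [per_rotate]
  exact wt_perm (List.rotate_perm w a)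

theorem per_period (w : List Bool) (a m : ℕ) : per w (a + w.length) m = per w a m := by
  unfold per
  refine List.map_congr_left fun i _ => ?_
  have : (a + w.length + i) % w.length = (a + i) % w.length := by
    rw [show a + w.length + i = a + i + w.length by omega, Nat.add_mod_right]
  rw [this]

theorem per_add (w : List Bool) (a m m' : ℕ) :
    per w a (m + m') = per w a m ++ per w (a + m) m' := by
  unfold per
  rw [List.range_add, List.map_append, List.map_map]
  congr 1
  refine List.map_congr_left fun i _ => ?_
  simp [Nat.add_assoc]

theorem per_per (w : List Bool) (a b m : ℕ) (hw : 1 ≤ w.length) :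
    per (per w a w.length) b m = per w (a + b) m := by
  refine List.ext_getElem ?_ fun i h1 h2 => ?_
  · rw [per_length, per_length]
  · rw [per_get, per_get, per_length, per_getD _ _ _ _ (Nat.mod_lt _ hw)]
    congr 1
    rw [Nat.add_mod_mod]
    congr 1
    omega

theorem per_take (w : List Bool) (m : ℕ) (hm : m ≤ w.length) : per w 0 m = w.take m := by
  refine List.ext_getElem ?_ fun i h1 h2 => ?_
  · rw [per_length, List.length_take]
    omega
  · rw [per_get, List.getElem_take]
    rw [per_length] at h1
    have h3 : (0 + i) % w.length = i := by
      rw [Nat.zero_add]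
      exact Nat.mod_eq_of_lt (by omega)
    rw [h3, List.getD_eq_getElem _ _ (by omega)]

theorem per_reverse (w : List Bool) (a m : ℕ) (hw : 1 ≤ w.length) :
    ∃ b : ℕ, (per w a m).reverse = per w.reverse b m := by
  refine ⟨(w.length - 1) * (a + m), ?_⟩
  obtain ⟨n, hn⟩ : ∃ n, n = w.length := ⟨_, rfl⟩
  refine List.ext_getElem ?_ fun i h1 h2 => ?_
  · rw [List.length_reverse, per_length, per_length]
  · rw [List.length_reverse, per_length] at h1
    rw [List.getElem_reverse, per_get, per_get, List.length_reverse, per_length, ← hn]
    rw [← hn] at hw
    have hx : ((n - 1) * (a + m) + i) % n < n := Nat.mod_lt _ hw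
    have hy : (a + (m - 1 - i)) % n < n := Nat.mod_lt _ hw
    have hsum : ((n - 1) * (a + m) + i) % n + (a + (m - 1 - i)) % n + 1 = n := by
      have h3 : (((n - 1) * (a + m) + i) % n + (a + (m - 1 - i)) % n + 1) % n = 0 := by
        rw [Nat.add_mod, ← Nat.add_mod ((n - 1) * (a + m) + i), ← Nat.add_mod]
        have h4 : (n - 1) * (a + m) + i + (a + (m - 1 - i)) + 1 = n * (a + m) := by
          obtain ⟨n', rfl⟩ : ∃ n', n = n' + 1 := ⟨n - 1, by omega⟩
          have h5 : n' + 1 - 1 = n' := by omega
          rw [h5, Nat.add_mul, Nat.one_mul]
          omega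
        rw [h4]
        exact Nat.mul_mod_right _ _
      have h5 := Nat.dvd_of_mod_eq_zero h3
      obtain ⟨q, hq⟩ := h5
      have hq1 : q = 1 := by
        rcases q with _ | _ | q
        · omega
        · rfl
        · exfalso
          have : n * (q + 1 + 1) = n * q + n + n := by ring
          rw [this] at hq
          omega
      rw [hq1, Nat.mul_one] at hq
      exact hq
    have h6 : ((n - 1) * (a + m) + i) % n = n - 1 - (a + (m - 1 - i)) % n := by omega
    rw [h6, List.getD_eq_getElem _ _ (by rw [← hn]; exact hy),
      List.getD_eq_getElem _ _ (by rw [List.length_reverse, ← hn]; omega), List.getElem_reverse]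
    congr 1
    rw [← hn]
    omega

theorem pwt : PwtStmt :=
  ⟨wt_per, per_period, per_length, per_add, fun w a b m hw => per_per w a b m hw,
    fun w m hm => per_take w m hm, fun w a m hw => per_reverse w a m hw⟩

theorem per_map_not (w : List Bool) (a m : ℕ) (hw : 1 ≤ w.length) :
    (per w a m).map not = per (w.map not) a m := by
  refine List.ext_getElem ?_ fun i h1 h2 => ?_
  · rw [List.length_map, per_length, per_length]
  · rw [List.getElem_map, per_get, per_get, List.length_map]
    have h3 : (a + i) % w.length < w.length := Nat.mod_lt _ hw
    rw [List.getD_eq_getElem _ _ h3, List.getD_eq_getElem _ _ (by rw [List.length_map]; exact h3),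
      List.getElem_map]

theorem blk_length {k t : ℕ} (ht : t ≤ k) : (blk k t).length = k := by
  unfold blk
  rw [List.length_append, List.length_replicate, List.length_replicate]
  omega

theorem blk_rot {k t : ℕ} (ht : t ≤ k) :
    per (blk k t) t k = List.replicate (k - t) false ++ List.replicate t true := by
  have h1 := per_rotate (blk k t) t
  rw [blk_length ht] at h1
  rw [h1]
  have h2 := List.rotate_append_length_eq (List.replicate t true) (List.replicate (k - t) false)
  rw [List.length_replicate] at h2
  exact h2

theorem blr : BlrStmt := by
  intro k t ht hk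
  refine ⟨fun a m => ?_, fun a m => ?_, blk_length ht, ?_⟩
  · obtain ⟨b, hb⟩ := per_reverse (blk k t) a m (by rw [blk_length ht]; exact hk)
    refine ⟨t + b, ?_⟩
    have h1 : (blk k t).reverse = per (blk k t) t k := by
      rw [blk_rot ht]
      unfold blk
      rw [List.reverse_append, List.reverse_replicate, List.reverse_replicate]
    have h2 := per_per (blk k t) t b m (by rw [blk_length ht]; exact hk)
    rw [blk_length ht] at h2
    rw [hb, h1, h2]
  · refine ⟨(k - t) + a, ?_⟩
    rw [per_map_not _ _ _ (by rw [blk_length ht]; exact hk)]
    have ht' : k - t ≤ k := Nat.sub_le _ _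
    have h1 : (blk k t).map not = per (blk k (k - t)) (k - t) k := by
      rw [blk_rot ht']
      unfold blk
      rw [List.map_append, List.map_replicate, List.map_replicate]
      congr 2
      omega
    have h2 := per_per (blk k (k - t)) (k - t) a m (by rw [blk_length ht']; exact hk)
    rw [blk_length ht'] at h2
    rw [h1, h2]
  · unfold wt blk
    rw [List.count_append, List.count_replicate_self, List.count_replicate]
    simp

theorem per_succ (w : List Bool) (a m : ℕ) :
    per w a (m + 1) = per w a m ++ [w.getD ((a + m) % w.length) false] := by
  rw [per_add]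
  congr 1

theorem per_tail (w : List Bool) (a m : ℕ) : (per w a (m + 1)).tail = per w (a + 1) m := by
  rw [Nat.add_comm m 1, per_add]
  have : per w a 1 = [w.getD ((a + 0) % w.length) false] := rfl
  rw [this]
  rfl

theorem per_ : PerStmt := by
  intro V _ _ H X k p ε K w a m hk hw hp
  induction m with
  | zero => exact Pl.nil _ (per_length _ _ _)
  | succ m ih =>
    have h1 : per w (a + m) (k - 1) ++ [w.getD ((a + m + (k - 1)) % w.length) false] =
        per w (a + m) (k - 1 + 1) := (per_succ w (a + m) (k - 1)).symm
    have h2 : k - 1 + 1 = k := by omega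
    have h3 := Pl.letter _ _ _ _ _ (w.getD ((a + m + (k - 1)) % w.length) false) ih (by
      rw [h1, h2]
      have h4 := wt_per w (a + m)
      rw [hw] at h4
      rw [h4]
      exact hp)
    rw [h1, per_tail] at h3
    have h5 : wt (per w (a + k - 1) (m + 1)) =
        wt (per w (a + k - 1) m) + wt [w.getD ((a + m + (k - 1)) % w.length) false] := by
      rw [per_succ]
      unfold wt
      rw [List.count_append]
      congr 3
      have : a + k - 1 + m = a + m + (k - 1) := by omega
      rw [this]
    rw [h5]
    exact h3

end Pool.Agent.KK.H3
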