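import Pool.Agent.Helper3_KK.CYC

/-! MP_747bc0_co, squad KK, block BETA, row REA: realisation of a plan. -/

set_option autoImplicit false

namespace Pool.Agent.KK.H3

section lists

variable {α : Type}

/-- a window of `A ++ B` is a window of `A` or of the last entries of `A` and `B` -/
theorem infix_split {A' W B s : List α} {k : ℕ} (hW : W.length + 1 = k)
    (hs : s.length = k) (h : s <:+: (A' ++ W) ++ B) : s <:+: A' ++ W ∨ s <:+: W ++ B := by
  obtain ⟨i, hi, rfl⟩ := (infix_iff_drop _ _ _).1 ⟨h, hs⟩
  rw [List.length_append, List.length_append] at hi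
  by_cases h1 : i + k ≤ (A' ++ W).length
  · left
    have h2 : (((A' ++ W) ++ B).drop i).take k = ((A' ++ W).drop i).take k := by
      rw [List.drop_append_of_le_length (by omega), List.take_append_of_le_length]
      rw [List.length_drop]
      omega
    rw [h2]
    exact (List.take_prefix _ _).isInfix.trans (List.drop_suffix _ _).isInfix
  · right
    rw [List.length_append] at h1
    have h2 : ((A' ++ W) ++ B).drop i = (W ++ B).drop (i - A'.length) := by
      rw [List.append_assoc, List.drop_append, List.drop_eq_nil_of_le (by omega),
        List.nil_append]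
    rw [h2]
    exact (List.take_prefix _ _).isInfix.trans (List.drop_suffix _ _).isInfix

end lists

variable {V : Type} [Fintype V] [DecidableEq V]

omit [Fintype V] [DecidableEq V] in
theorem fr_fw (u : List Bool) : fr (fw u : List (Slot V)) = u.length := by
  unfold fr fw
  rw [List.countP_map]
  exact List.countP_eq_length.2 fun _ _ => rfl

omit [Fintype V] [DecidableEq V] in
theorem fw_length (u : List Bool) : (fw u : List (Slot V)).length = u.length := by
  unfold fw
  rw [List.length_map]

omit [Fintype V] [DecidableEq V] in
theorem fw_append (u v : List Bool) : (fw (u ++ v) : List (Slot V)) = fw u ++ fw v := by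
  unfold fw
  rw [List.map_append]

omit [Fintype V] [DecidableEq V] in
theorem fw_inj {u v : List Bool} (h : (fw u : List (Slot V)) = fw v) : u = v :=
  List.map_injective_iff.2 Sum.inr_injective h

omit [Fintype V] in
theorem cX_append (X : Finset V) (s t : List (Slot V)) : cX X (s ++ t) = cX X s + cX X t := by
  unfold cX
  rw [List.countP_append]

omit [Fintype V] in
theorem cX_fw (X : Finset V) (u : List Bool) : cX X (fw u) = wt u := by
  induction u with
  | nil => rfl
  | cons b u ih =>
    have h1 : (fw (b :: u) : List (Slot V)) = Sum.inr b :: fw u := rfl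
    rw [h1]
    unfold cX wt at *
    rw [List.countP_cons, List.count_cons, ih]
    cases b <;> simp

omit [Fintype V] in
theorem cX_vx (X : Finset V) (l : List V) :
    cX X (vx l) = wt (l.map fun v => decide (v ∈ X)) := by
  induction l with
  | nil => rfl
  | cons b u ih =>
    have h1 : (vx (b :: u) : List (Slot V)) = Sum.inl b :: vx u := rfl
    rw [h1]
    unfold cX wt at *
    rw [List.map_cons, List.countP_cons, List.count_cons, ih]
    by_cases hb : b ∈ X <;> simp [hb]

omit [Fintype V] [DecidableEq V] in
theorem fx_append (s t : List (Slot V)) : fx (s ++ t) = fx s ++ fx t := by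
  unfold fx
  rw [List.filterMap_append]

omit [Fintype V] [DecidableEq V] in
theorem fx_fw (u : List Bool) : fx (fw u : List (Slot V)) = [] := by
  induction u with
  | nil => rfl
  | cons b u ih =>
    have h1 : (fw (b :: u) : List (Slot V)) = Sum.inr b :: fw u := rfl
    rw [h1]
    unfold fx at *
    rw [List.filterMap_cons]
    exact ih

omit [Fintype V] [DecidableEq V] in
theorem fx_vx (l : List V) : fx (vx l : List (Slot V)) = l := by
  induction l with
  | nil => rfl
  | cons b u ih =>
    have h1 : (vx (b :: u) : List (Slot V)) = Sum.inl b :: vx u := rfl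
    rw [h1]
    unfold fx at *
    rw [List.filterMap_cons]
    change b :: _ = _
    rw [ih]

omit [Fintype V] [DecidableEq V] in
/-- a window of length `k` between two free words of length `k - 1` with something fixed in the
middle is not free -/
theorem no_free {k : ℕ} {v uR s : List Bool} {l : List V} (hv : v.length + 1 = k)
    (hR : uR.length + 1 = k) (hl : 1 ≤ l.length) (hs : s.length = k)
    (h : (fw s : List (Slot V)) <:+: fw v ++ (vx l ++ fw uR)) : False := by
  obtain ⟨i, hi, he⟩ := (infix_iff_drop _ _ _).1 ⟨h, (fw_length s).trans hs⟩
  have hvx : (vx l : List (Slot V)).length = l.length := by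
    unfold vx
    rw [List.length_map]
  rw [List.length_append, List.length_append, fw_length, fw_length, hvx] at hi
  obtain ⟨j, hj⟩ : ∃ j, j = max i v.length := ⟨_, rfl⟩
  have hj1 : v.length ≤ j := by omega
  have hj2 : j < v.length + l.length := by omega
  have hj3 : i ≤ j := by omega
  have hj4 : j - i < k := by omega
  have e1 : (fw s : List (Slot V))[j - i]? = (fw v ++ (vx l ++ fw uR))[j]? := by
    rw [he, List.getElem?_take_of_lt hj4, List.getElem?_drop]
    congr 1
    omega
  have e2 : (fw v ++ (vx l ++ fw uR) : List (Slot V))[j]? = some (Sum.inl l[j - v.length]) := by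
    rw [List.getElem?_append_right (by rw [fw_length]; exact hj1), fw_length,
      List.getElem?_append_left (by rw [hvx]; omega)]
    unfold vx
    rw [List.getElem?_map, List.getElem?_eq_getElem (by omega)]
    rfl
  have e3 : (fw s : List (Slot V))[j - i]? = some (Sum.inr s[j - i]) := by
    unfold fw
    rw [List.getElem?_map, List.getElem?_eq_getElem (by omega)]
    rfl
  rw [e3, e2] at e1
  exact absurd (Option.some.inj e1) (by simp)

theorem rea (hNea : NeaStmt) : RezStmt := by
  intro V _ _ H X k p γ ε K hk hγ hγε hN u v N a q hP
  induction hP with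
  | nil hu =>
    intro _
    have hno : ∀ s : List (Slot V), s <:+: fw u ++ [] → s.length = k → False := by
      intro s hs hsk
      have h1 := hs.length_le
      rw [List.append_nil, fw_length] at h1
      omega
    refine ⟨[], rfl, rfl, List.nodup_nil, Nat.zero_le _, hu, hu, ?_, ?_, ?_⟩
    · rw [List.append_nil]
    · intro s hs hsk
      exact (hno s hs hsk).elim
    · intro s hs hsk
      exact (hno _ hs ((fw_length s).trans hsk)).elim
  | letter v N a q b _ hw ih =>
    intro hK
    obtain ⟨L, hL1, hL2, hL3, hL4, hu, hv, hsuf, hok, hpar⟩ := ih hK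
    have hfwb : (fw (v ++ [b]) : List (Slot V)) = fw v ++ [Sum.inr b] := fw_append _ _
    have hvb : (v ++ [b]).length = k := by
      rw [List.length_append, hv, List.length_singleton]
      omega
    have hsuf2 : (fw (v ++ [b]) : List (Slot V)) <:+ fw u ++ (L ++ [Sum.inr b]) := by
      obtain ⟨A, hA⟩ := hsuf
      refine ⟨A, ?_⟩
      rw [hfwb, ← List.append_assoc, hA, List.append_assoc]
    have hsplit : ∀ s : List (Slot V), s <:+: fw u ++ (L ++ [Sum.inr b]) → s.length = k →
        s <:+: fw u ++ L ∨ s = fw (v ++ [b]) := by
      intro s hs hsk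
      obtain ⟨A, hA⟩ := hsuf
      rw [← List.append_assoc, ← hA] at hs
      rcases infix_split (k := k) (by rw [fw_length, hv]; exact Nat.sub_add_cancel hk) hsk hs
        with h | h
      · left
        rw [hA] at h
        exact h
      · right
        rw [← hfwb] at h
        exact h.eq_of_length (by rw [hsk, fw_length, hvb])
    refine ⟨L ++ [Sum.inr b], ?_, ?_, ?_, ?_, hu, ?_, ?_, ?_, ?_⟩
    · rw [List.length_append, hL1]
      rfl
    · have h1 : ([Sum.inr b] : List (Slot V)) = fw [b] := rfl
      rw [cX_append, hL2, h1, cX_fw]
    · have h1 : ([Sum.inr b] : List (Slot V)) = fw [b] := rfl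
      rw [fx_append, h1, fx_fw, List.append_nil]
      exact hL3
    · have h1 : ([Sum.inr b] : List (Slot V)) = fw [b] := rfl
      rw [fx_append, h1, fx_fw, List.append_nil]
      exact hL4
    · rw [List.length_tail, hvb]
    · have h1 : (fw (v ++ [b]).tail : List (Slot V)) = (fw (v ++ [b])).tail := by
        unfold fw
        rw [List.map_tail]
      rw [h1]
      exact (List.tail_suffix _).trans hsuf2
    · intro s hs hsk
      rcases hsplit s hs hsk with h | h
      · exact hok s h hsk
      · unfold OKs
        rw [h, fr_fw, hvb]
        refine (hNea V H X k p γ hk hγ hN (v ++ [b]) hvb hw).trans ?_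
        gcongr
    · intro s hs hsk
      rcases hsplit _ hs ((fw_length s).trans hsk) with h | h
      · exact hpar s h hsk
      · rw [fw_inj h]
        exact hw
  | gadget v N a q c uR _ hc1 hc2 huR hS ih =>
    intro hK
    have hK1 : 2 * k * q + 2 * k ≤ K := by
      have : 2 * k * (q + 1) = 2 * k * q + 2 * k := by ring
      omega
    obtain ⟨L, hL1, hL2, hL3, hL4, hu, hv, hsuf, hok, hpar⟩ := ih (by omega)
    obtain ⟨l, hl1, hl2, hl3, hl4⟩ := hS (fx L).toFinset
      ((List.toFinset_card_le _).trans (by omega))
    have hlc : l.length = c.length := by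
      rw [← hl3, List.length_map]
    have hvx : (vx l : List (Slot V)).length = l.length := by
      unfold vx
      rw [List.length_map]
    have hsplit : ∀ s : List (Slot V), s <:+: fw u ++ (L ++ (vx l ++ fw uR)) → s.length = k →
        s <:+: fw u ++ L ∨ s <:+: fw v ++ (vx l ++ fw uR) := by
      intro s hs hsk
      obtain ⟨A, hA⟩ := hsuf
      rw [← List.append_assoc, ← hA] at hs
      rcases infix_split (k := k) (by rw [fw_length, hv]; exact Nat.sub_add_cancel hk) hsk hs
        with h | h
      · left
        rw [hA] at h
        exact h
      · right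
        exact h
    refine ⟨L ++ (vx l ++ fw uR), ?_, ?_, ?_, ?_, hu, huR, ?_, ?_, ?_⟩
    · rw [List.length_append, List.length_append, hL1, fw_length, hvx, huR, hlc]
      omega
    · rw [cX_append, cX_append, hL2, cX_fw, cX_vx, hl3]
      omega
    · rw [fx_append, fx_append, fx_fw, fx_vx, List.append_nil]
      refine List.nodup_append.2 ⟨hL3, hl1, ?_⟩
      intro x hx y hy hxy
      subst hxy
      exact hl2 x hy (List.mem_toFinset.2 hx)
    · rw [fx_append, fx_append, fx_fw, fx_vx, List.append_nil, List.length_append, hlc]
      have : 2 * k * (q + 1) = 2 * k * q + 2 * k := by ring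
      omega
    · exact ((List.suffix_append _ _).trans (List.suffix_append _ _)).trans
        (List.suffix_append _ _)
    · intro s hs hsk
      rcases hsplit s hs hsk with h | h
      · exact hok s h hsk
      · refine hl4 s ?_ hsk
        rw [List.append_assoc]
        exact h
    · intro s hs hsk
      rcases hsplit _ hs ((fw_length s).trans hsk) with h | h
      · exact hpar s h hsk
      · exact (no_free (by rw [hv]; exact Nat.sub_add_cancel hk)
          (by rw [huR]; exact Nat.sub_add_cancel hk) (by rw [hlc]; exact hc1) hsk h).elim

end Pool.Agent.KK.H3
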